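import Pool.Agent.Lib.TPath.Scan

/-!
# Long tight paths: counting the states
-/

set_option autoImplicit false

namespace Pool.Agent.Lib.TPath

open Finset

variable {V : Type*} [Fintype V] [DecidableEq V] {M R : ℕ} [NeZero M] {F : Finset (Finset V)}

/-- The states with window in `F`. -/
def gd (M R : ℕ) [NeZero M] (F : Finset (Finset V)) : Finset (St V M R) :=
  univ.filter fun x => win x.1 x.2 ∈ F

theorem mem_gd {x : St V M R} : x ∈ gd M R F ↔ win x.1 x.2 ∈ F := by
  rw [gd, mem_filter]
  exact and_iff_right (mem_univ _)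

/-- The total movement of the mark. -/
theorem sum_gap_le : ∑ x ∈ gd M R F, gap F x ≤ Fintype.card (St V M R) := by
  have h1 : ∑ x ∈ gd M R F, gap F x = ((gd M R F).sigma fun x => range (gap F x)).card := by
    rw [card_sigma]
    exact sum_congr rfl fun x _ => (card_range _).symm
  rw [h1, ← card_univ]
  refine card_le_card_of_injOn (fun z => (z.1.1, z.1.2 + (z.2 : ZMod M))) (fun z _ => mem_univ _) ?_
  rintro ⟨⟨e, p⟩, i⟩ hz ⟨⟨e', q⟩, j⟩ hz' h
  simp only [mem_coe, mem_sigma, mem_gd, mem_range] at hz hz'
  simp only [Prod.mk.injEq] at h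
  obtain ⟨rfl, h⟩ := h
  rcases le_total j i with hle | hle
  · obtain ⟨rfl, rfl⟩ := mark_unique hz'.1 hle hz.2.le h (Or.inl hz.2)
    rfl
  · obtain ⟨rfl, rfl⟩ := mark_unique hz.1 hle hz'.2.le h.symm (Or.inl hz'.2)
    rfl

theorem stp_mem {x : St V M R} (hx : x ∈ gd M R F) : stp F x ∈ gd M R F :=
  mem_gd.2 (win_stp (mem_gd.1 hx))

theorem iterate_mem {x : St V M R} (hx : x ∈ gd M R F) (j : ℕ) : (stp F)^[j] x ∈ gd M R F := by
  induction j with
  | zero => exact hx
  | succ j ih =>
    rw [Function.iterate_succ_apply']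
    exact stp_mem ih

/-- The step preserves the uniform measure. -/
theorem sum_stp (g : St V M R → ℕ) : ∑ x ∈ gd M R F, g (stp F x) = ∑ x ∈ gd M R F, g x := by
  have hinj : Set.InjOn (stp F) (gd M R F : Set (St V M R)) := fun x hx y hy h =>
    stp_inj (mem_gd.1 (mem_coe.1 hx)) (mem_gd.1 (mem_coe.1 hy)) h
  have himg : (gd M R F).image (stp F) = gd M R F := by
    refine eq_of_subset_of_card_le ?_ ?_
    · intro y hy
      obtain ⟨x, hx, rfl⟩ := mem_image.1 hy
      exact stp_mem hx
    · rw [card_image_of_injOn hinj]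
  conv_rhs => rw [← himg, sum_image hinj]

theorem sum_iterate (g : St V M R → ℕ) (j : ℕ) :
    ∑ x ∈ gd M R F, g ((stp F)^[j] x) = ∑ x ∈ gd M R F, g x := by
  induction j generalizing g with
  | zero => rfl
  | succ j ih =>
    have h := ih (fun x => g (stp F x))
    simp only [Function.iterate_succ_apply']
    rw [h, sum_stp]

/-- The movement of the mark in the first `L` steps. -/
noncomputable def tot (F : Finset (Finset V)) (L : ℕ) (x : St V M R) : ℕ :=
  ∑ j ∈ range L, gap F ((stp F)^[j] x)

theorem sum_tot (L : ℕ) : ∑ x ∈ gd M R F, tot F L x = L * ∑ x ∈ gd M R F, gap F x := by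
  unfold tot
  rw [sum_comm]
  simp only [sum_iterate (gap F)]
  rw [sum_const, card_range, smul_eq_mul]

/-- Some state moves the mark by less than one turn in `L` steps. -/
theorem exists_tot_lt {L : ℕ} (h : L * Fintype.card (St V M R) < M * (gd M R F).card) :
    ∃ x ∈ gd M R F, tot F L x < M := by
  by_contra hcon
  push Not at hcon
  have h1 : (gd M R F).card • M ≤ ∑ x ∈ gd M R F, tot F L x := card_nsmul_le_sum _ _ _ hcon
  rw [sum_tot, smul_eq_mul] at h1
  have h2 := Nat.mul_le_mul_left L (sum_gap_le (M := M) (R := R) (F := F))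
  rw [mul_comm] at h1
  omega

section fibre

/-- The states with window `A`. -/
def fib (M R : ℕ) [NeZero M] (A : Finset V) : Finset (St V M R) :=
  univ.filter fun x => win x.1 x.2 = A

theorem mem_fib {A : Finset V} {x : St V M R} : x ∈ fib M R A ↔ win x.1 x.2 = A := by
  rw [fib, mem_filter]
  exact and_iff_right (mem_univ _)

omit [Fintype V] in
theorem exists_perm [Finite V] {A B : Finset V} (h : A.card = B.card) :
    ∃ π : Equiv.Perm V, A.image π = B := by
  classical
  have := Fintype.ofFinite V
  let e : {x // x ∈ A} ≃ {x // x ∈ B} := Finset.equivOfCardEq h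
  refine ⟨e.extendSubtype, ?_⟩
  refine eq_of_subset_of_card_le ?_ ?_
  · intro y hy
    obtain ⟨x, hx, rfl⟩ := mem_image.1 hy
    exact e.extendSubtype_mem x hx
  · rw [card_image_of_injective _ (Equiv.injective _), h]

theorem card_fib_le {A B : Finset V} (h : A.card = B.card) :
    (fib M R A).card ≤ (fib M R B).card := by
  obtain ⟨π, hπ⟩ := exists_perm h
  refine card_le_card_of_injOn (fun x => (x.1.trans π, x.2)) ?_ ?_
  · intro x hx
    rw [mem_coe, mem_fib] at hx
    rw [mem_coe, mem_fib, ← hπ, ← hx, win, win, image_image]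
    rfl
  · rintro ⟨e, p⟩ - ⟨e', q⟩ - h
    simp only [Prod.mk.injEq] at h
    obtain ⟨h1, rfl⟩ := h
    have h2 : e = e' := by
      have h3 := congrArg (fun f => f.trans π.symm) h1
      simpa only [Equiv.trans_assoc, Equiv.self_trans_symm, Equiv.trans_refl] using h3
    rw [h2]

theorem card_fib_eq {A B : Finset V} (h : A.card = B.card) :
    (fib M R A).card = (fib M R B).card :=
  le_antisymm (card_fib_le h) (card_fib_le h.symm)

/-- All `(R + 2)`-sets are windows equally often. -/
theorem card_gd (hF : ∀ A ∈ F, A.card = R + 2) :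
    (gd M R F).card * (Fintype.card V).choose (R + 2) = F.card * Fintype.card (St V M R) := by
  rcases F.eq_empty_or_nonempty with rfl | ⟨A₀, hA₀⟩
  · have : gd M R (∅ : Finset (Finset V)) = ∅ := by
      ext x
      rw [mem_gd]
      simp
    rw [this, card_empty, card_empty, zero_mul, zero_mul]
  · have h1 : (gd M R F).card = ∑ A ∈ F, ((gd M R F).filter fun x => win x.1 x.2 = A).card :=
      card_eq_sum_card_fiberwise fun x hx => mem_gd.1 (mem_coe.1 hx)
    have h2 : ∀ A ∈ F, ((gd M R F).filter fun x => win x.1 x.2 = A).card = (fib M R A₀).card := by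
      intro A hA
      rw [← card_fib_eq (M := M) (R := R) ((hF A hA).trans (hF A₀ hA₀).symm)]
      congr 1
      ext x
      rw [mem_filter, mem_gd, mem_fib]
      exact ⟨fun h => h.2, fun h => ⟨h ▸ hA, h⟩⟩
    have h3 : Fintype.card (St V M R) =
        ∑ A ∈ powersetCard (R + 2) (univ : Finset V),
          ((univ : Finset (St V M R)).filter fun x => win x.1 x.2 = A).card := by
      rw [← card_univ]
      refine card_eq_sum_card_fiberwise fun x _ => ?_
      rw [mem_coe, mem_powersetCard]
      exact ⟨subset_univ _, card_win _ _⟩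
    have h4 : ∀ A ∈ powersetCard (R + 2) (univ : Finset V),
        ((univ : Finset (St V M R)).filter fun x => win x.1 x.2 = A).card =
          (fib M R A₀).card := by
      intro A hA
      exact card_fib_eq (M := M) (R := R) ((mem_powersetCard.1 hA).2.trans (hF A₀ hA₀).symm)
    rw [sum_congr rfl h2, sum_const, smul_eq_mul] at h1
    rw [sum_congr rfl h4, sum_const, smul_eq_mul, card_powersetCard, card_univ] at h3
    rw [h1, h3]
    ring

end fibre

end Pool.Agent.Lib.TPath
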