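import Pool.Agent.Lib.TPath.Main

/-!
# Long tight paths: the case of equality for two complementary families

`V` has `3 r - 1` elements, `r ≥ 3`, and the `r`-subsets are divided into two families. One of the
families contains a tight path with `2 r` vertices.
-/

set_option autoImplicit false

namespace Pool.Agent.Lib.TPath

open Finset

variable {V : Type*} [Fintype V] [DecidableEq V] {R : ℕ}

section general

variable {M : ℕ} [NeZero M] {F : Finset (Finset V)}

/-- Equality in `sum_gap_le`. -/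
theorem exists_special (h : ∑ x ∈ gd M R F, gap F x = Fintype.card (St V M R))
    (e : (ZMod M ⊕ Fin (R + 1)) ≃ V) : ∃ p : ZMod M, win e p ∈ F := by
  have h1 : ∑ x ∈ gd M R F, gap F x = ((gd M R F).sigma fun x => range (gap F x)).card := by
    rw [card_sigma]
    exact sum_congr rfl fun x _ => (card_range _).symm
  have hinj : Set.InjOn (fun z : (_ : St V M R) × ℕ => (z.1.1, z.1.2 + (z.2 : ZMod M)))
      ((gd M R F).sigma fun x => range (gap F x) : Finset ((_ : St V M R) × ℕ)) := by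
    rintro ⟨⟨e, p⟩, i⟩ hz ⟨⟨e', q⟩, j⟩ hz' h
    simp only [mem_coe, mem_sigma, mem_gd, mem_range] at hz hz'
    simp only [Prod.mk.injEq] at h
    obtain ⟨rfl, h⟩ := h
    rcases le_total j i with hle | hle
    · obtain ⟨rfl, rfl⟩ := mark_unique hz'.1 hle hz.2.le h (Or.inl hz.2)
      rfl
    · obtain ⟨rfl, rfl⟩ := mark_unique hz.1 hle hz'.2.le h.symm (Or.inl hz'.2)
      rfl
  have hsurj := surjOn_of_injOn_of_card_le (t := (univ : Finset (St V M R)))
    (fun z : (_ : St V M R) × ℕ => (z.1.1, z.1.2 + (z.2 : ZMod M))) (fun _ _ => mem_coe.2 (mem_univ _))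
    hinj (by rw [← h1, h, card_univ])
  obtain ⟨⟨⟨e', p⟩, i⟩, hz, hzz⟩ := hsurj (mem_coe.2 (mem_univ (e, (0 : ZMod M))))
  simp only [Prod.mk.injEq] at hzz
  rw [mem_coe, mem_sigma, mem_gd] at hz
  exact ⟨p, hzz.1 ▸ hz.1⟩

/-- The special slots. -/
def sp (F : Finset (Finset V)) (e : (ZMod M ⊕ Fin (R + 1)) ≃ V) : Finset (ZMod M) :=
  univ.filter fun q => win e q ∈ F

omit [Fintype V] in
theorem mem_sp {e : (ZMod M ⊕ Fin (R + 1)) ≃ V} {q : ZMod M} : q ∈ sp F e ↔ win e q ∈ F := by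
  rw [sp, mem_filter]
  exact and_iff_right (mem_univ _)

omit [Fintype V] [NeZero M] in
theorem win_perm (e : (ZMod M ⊕ Fin (R + 1)) ≃ V) (σ : Equiv.Perm (ZMod M)) (q : ZMod M) :
    win ((Equiv.sumCongr σ (Equiv.refl _)).trans e) q = win e (σ q) := by
  ext v
  rw [win, win, mem_image, mem_image]
  constructor
  · rintro ⟨a, ha, rfl⟩
    rcases mem_plc.1 ha with rfl | ⟨i, rfl⟩
    · exact ⟨Sum.inl (σ q), mem_plc.2 (Or.inl rfl), rfl⟩
    · exact ⟨Sum.inr i, mem_plc.2 (Or.inr ⟨i, rfl⟩), rfl⟩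
  · rintro ⟨a, ha, rfl⟩
    rcases mem_plc.1 ha with rfl | ⟨i, rfl⟩
    · exact ⟨Sum.inl q, mem_plc.2 (Or.inl rfl), rfl⟩
    · exact ⟨Sum.inr i, mem_plc.2 (Or.inr ⟨i, rfl⟩), rfl⟩

end general

section eq

variable {F G : Finset (Finset V)}

/-- The data of the case of equality. -/
structure EqC (R : ℕ) (F : Finset (Finset V)) : Prop where
  tot : ∀ x : St V (2 * (R + 2)) R, win x.1 x.2 ∈ F → tot F (R + 2) x = 2 * (R + 2)
  ex : ∀ e : (ZMod (2 * (R + 2)) ⊕ Fin (R + 1)) ≃ V, ∃ p, win e p ∈ F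

theorem eqC_of (hFG : ∀ (e : (ZMod (2 * (R + 2)) ⊕ Fin (R + 1)) ≃ V) p,
      win e p ∈ G ↔ win e p ∉ F)
    (hF : ∀ x : St V (2 * (R + 2)) R, win x.1 x.2 ∈ F → 2 * (R + 2) ≤ tot F (R + 2) x)
    (hG : ∀ x : St V (2 * (R + 2)) R, win x.1 x.2 ∈ G → 2 * (R + 2) ≤ tot G (R + 2) x) :
    EqC R F := by
  have hle : ∀ H : Finset (Finset V),
      (∀ x : St V (2 * (R + 2)) R, win x.1 x.2 ∈ H → 2 * (R + 2) ≤ tot H (R + 2) x) →
      (gd (2 * (R + 2)) R H).card * (2 * (R + 2)) ≤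
        (R + 2) * ∑ x ∈ gd (2 * (R + 2)) R H, gap H x := by
    intro H hH
    rw [← sum_tot]
    exact card_nsmul_le_sum _ _ _ fun x hx => hH x (mem_gd.1 hx)
  have hF1 := hle F hF
  have hG1 := hle G hG
  have hF2 := sum_gap_le (M := 2 * (R + 2)) (R := R) (F := F)
  have hG2 := sum_gap_le (M := 2 * (R + 2)) (R := R) (F := G)
  have hsum : (gd (2 * (R + 2)) R F).card + (gd (2 * (R + 2)) R G).card =
      Fintype.card (St V (2 * (R + 2)) R) := by
    have h := card_filter_add_card_filter_not (s := (univ : Finset (St V (2 * (R + 2)) R)))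
      (fun x => win x.1 x.2 ∈ F)
    rw [card_univ] at h
    rw [← h]
    congr 2
    ext x
    rw [mem_gd, mem_filter, hFG]
    exact (and_iff_right (mem_univ _)).symm
  have hpos : 0 < R + 2 := by omega
  have hF3 : 2 * (gd (2 * (R + 2)) R F).card ≤ ∑ x ∈ gd (2 * (R + 2)) R F, gap F x := by
    refine Nat.le_of_mul_le_mul_left ?_ hpos
    calc (R + 2) * (2 * (gd (2 * (R + 2)) R F).card)
        = (gd (2 * (R + 2)) R F).card * (2 * (R + 2)) := by ring
      _ ≤ _ := hF1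
  have hG3 : 2 * (gd (2 * (R + 2)) R G).card ≤ ∑ x ∈ gd (2 * (R + 2)) R G, gap G x := by
    refine Nat.le_of_mul_le_mul_left ?_ hpos
    calc (R + 2) * (2 * (gd (2 * (R + 2)) R G).card)
        = (gd (2 * (R + 2)) R G).card * (2 * (R + 2)) := by ring
      _ ≤ _ := hG1
  have heq : ∑ x ∈ gd (2 * (R + 2)) R F, gap F x = Fintype.card (St V (2 * (R + 2)) R) := by omega
  have hcard : 2 * (gd (2 * (R + 2)) R F).card = Fintype.card (St V (2 * (R + 2)) R) := by omega
  refine ⟨fun x hx => ?_, exists_special heq⟩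
  have htot : ∑ x ∈ gd (2 * (R + 2)) R F, tot F (R + 2) x =
      ∑ _x ∈ gd (2 * (R + 2)) R F, 2 * (R + 2) := by
    rw [sum_tot, heq, ← hcard, sum_const, smul_eq_mul]
    ring
  exact ((sum_eq_sum_iff_of_le fun x hx => hF x (mem_gd.1 hx)).1 htot.symm x (mem_gd.2 hx)).symm

variable (hC : EqC R F)

include hC

omit [Fintype V] in
theorem EqC.sum_split {x : St V (2 * (R + 2)) R} (hx : win x.1 x.2 ∈ F) :
    gap F x + gap F (stp F x) + R ≤ 2 * (R + 2) ∧ gap F x ≤ R + 3 ∧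
      (gap F x = R + 3 → gap F (stp F x) = 1) := by
  have h := hC.tot x hx
  rw [Pool.Agent.Lib.TPath.tot, sum_range_succ', sum_range_succ'] at h
  have h1 : (R : ℕ) ≤ ∑ k ∈ range R, gap F ((stp F)^[k + 1 + 1] x) := by
    have := card_nsmul_le_sum (range R) (fun k => gap F ((stp F)^[k + 1 + 1] x)) 1
      fun k _ => gap_pos (good_iterate hx _)
    simpa using this
  have h2 : 0 < gap F (stp F x) := gap_pos (win_stp hx)
  have h3 : (stp F)^[0] x = x := rfl
  have h4 : (stp F)^[0 + 1] x = stp F x := rfl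
  rw [h3, h4] at h
  omega

end eq

section slots

variable {M : ℕ} [NeZero M]

theorem card_slots {b : ℕ} (hb : b < M) :
    (univ.filter fun q : ZMod M => 0 < q.val ∧ q.val ≤ b).card = b := by
  have h : (univ.filter fun q : ZMod M => 0 < q.val ∧ q.val ≤ b) =
      (Icc 1 b).image fun k : ℕ => (k : ZMod M) := by
    ext q
    rw [mem_filter, mem_image]
    constructor
    · rintro ⟨-, h1, h2⟩
      exact ⟨q.val, mem_Icc.2 ⟨h1, h2⟩, ZMod.natCast_zmod_val q⟩
    · rintro ⟨k, hk, rfl⟩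
      rw [mem_Icc] at hk
      rw [ZMod.val_natCast_of_lt (by omega)]
      exact ⟨mem_univ _, by omega⟩
  rw [h, card_image_of_injOn, Nat.card_Icc, Nat.add_sub_cancel]
  intro i hi j hj hij
  rw [mem_coe, mem_Icc] at hi hj
  have h1 := congrArg ZMod.val hij
  simp only at h1
  rwa [ZMod.val_natCast_of_lt (by omega), ZMod.val_natCast_of_lt (by omega)] at h1

/-- A set of slots can be moved to the slots `1, …, b`. -/
theorem exists_slots {B : Finset (ZMod M)} (hb : B.card < M) :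
    ∃ σ : Equiv.Perm (ZMod M), ∀ q, σ q ∈ B ↔ 0 < q.val ∧ q.val ≤ B.card := by
  obtain ⟨σ, hσ⟩ := exists_perm (card_slots hb)
  refine ⟨σ, fun q => ?_⟩
  constructor
  · intro hq
    rw [← hσ, mem_image] at hq
    obtain ⟨q', hq', h⟩ := hq
    obtain rfl := σ.injective h
    exact (mem_filter.1 hq').2
  · intro hq
    rw [← hσ]
    exact mem_image_of_mem _ (mem_filter.2 ⟨mem_univ _, hq⟩)

omit [NeZero M] in
theorem swap_mem {B : Finset (ZMod M)} {u v q : ZMod M} (hu : u ∉ B) (hv : v ∉ B) :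
    Equiv.swap u v q ∈ B ↔ q ∈ B := by
  by_cases h1 : q = u
  · subst h1
    rw [Equiv.swap_apply_left]
    exact iff_of_false hv hu
  · by_cases h2 : q = v
    · subst h2
      rw [Equiv.swap_apply_right]
      exact iff_of_false hu hv
    · rw [Equiv.swap_apply_of_ne_of_ne h1 h2]

/-- The same with two slots outside prescribed. -/
theorem exists_slots' {B : Finset (ZMod M)} (hb : B.card < M) {a b q₁ q₂ : ZMod M} (ha : a ∉ B)
    (hb' : b ∉ B) (hab : a ≠ b) (hq : q₁ ≠ q₂) (h1 : ¬ (0 < q₁.val ∧ q₁.val ≤ B.card))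
    (h2 : ¬ (0 < q₂.val ∧ q₂.val ≤ B.card)) :
    ∃ σ : Equiv.Perm (ZMod M), (∀ q, σ q ∈ B ↔ 0 < q.val ∧ q.val ≤ B.card) ∧ σ q₁ = a ∧
      σ q₂ = b := by
  obtain ⟨σ, hσ⟩ := exists_slots hb
  have h3 : σ q₁ ∉ B := fun h => h1 ((hσ q₁).1 h)
  set τ : Equiv.Perm (ZMod M) := σ.trans (Equiv.swap (σ q₁) a) with hτ
  have hτB : ∀ q, τ q ∈ B ↔ 0 < q.val ∧ q.val ≤ B.card := fun q => by
    rw [hτ, Equiv.trans_apply, swap_mem h3 ha, hσ]
  have hτ1 : τ q₁ = a := by rw [hτ, Equiv.trans_apply, Equiv.swap_apply_left]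
  have h4 : τ q₂ ∉ B := fun h => h2 ((hτB q₂).1 h)
  refine ⟨τ.trans (Equiv.swap (τ q₂) b), fun q => ?_, ?_, ?_⟩
  · rw [Equiv.trans_apply, swap_mem h4 hb', hτB]
  · rw [Equiv.trans_apply, hτ1]
    refine Equiv.swap_apply_of_ne_of_ne ?_ hab
    rw [← hτ1]
    exact fun h => hq (τ.injective h)
  · rw [Equiv.trans_apply, Equiv.swap_apply_left]

end slots

section tri

variable {M : ℕ}

/-- The window with the oldest track replaced by a second slot. -/
def tri (e : (ZMod M ⊕ Fin (R + 1)) ≃ V) (a b : ZMod M) : Finset V :=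
  insert (e (Sum.inl a)) (insert (e (Sum.inl b)) (univ.image fun i : Fin R => e (Sum.inr i.succ)))

omit [Fintype V] in
theorem mem_tri {e : (ZMod M ⊕ Fin (R + 1)) ≃ V} {a b : ZMod M} {v : V} : v ∈ tri e a b ↔
    v = e (Sum.inl a) ∨ v = e (Sum.inl b) ∨ ∃ i : Fin R, v = e (Sum.inr i.succ) := by
  rw [tri, mem_insert, mem_insert, mem_image]
  refine or_congr_right (or_congr_right ⟨?_, ?_⟩)
  · rintro ⟨i, -, h⟩
    exact ⟨i, h.symm⟩
  · rintro ⟨i, h⟩
    exact ⟨i, mem_univ _, h.symm⟩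

omit [Fintype V] in
theorem mem_win {e : (ZMod M ⊕ Fin (R + 1)) ≃ V} {a : ZMod M} {v : V} : v ∈ win e a ↔
    v = e (Sum.inl a) ∨ v = e (Sum.inr 0) ∨ ∃ i : Fin R, v = e (Sum.inr i.succ) := by
  rw [win, mem_image]
  constructor
  · rintro ⟨x, hx, rfl⟩
    rcases mem_plc.1 hx with rfl | ⟨i, rfl⟩
    · exact Or.inl rfl
    · refine Or.inr ?_
      rcases Fin.eq_zero_or_eq_succ i with rfl | ⟨j, rfl⟩
      · exact Or.inl rfl
      · exact Or.inr ⟨j, rfl⟩
  · rintro (rfl | rfl | ⟨i, rfl⟩)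
    · exact ⟨_, mem_plc.2 (Or.inl rfl), rfl⟩
    · exact ⟨_, mem_plc.2 (Or.inr ⟨_, rfl⟩), rfl⟩
    · exact ⟨_, mem_plc.2 (Or.inr ⟨_, rfl⟩), rfl⟩

omit [Fintype V] in
theorem win_ex_of_ne {e : (ZMod M ⊕ Fin (R + 1)) ≃ V} {a b : ZMod M} (h : b ≠ a) :
    win ((ex R a).trans e) b = tri e a b := by
  ext v
  rw [win, mem_image, mem_tri]
  constructor
  · rintro ⟨x, hx, rfl⟩
    rcases mem_plc.1 hx with rfl | ⟨i, rfl⟩
    · right; left
      rw [Equiv.trans_apply, ex_inl_of_ne h]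
    · rcases Fin.eq_castSucc_or_eq_last i with ⟨j, rfl⟩ | rfl
      · right; right
        exact ⟨j, by rw [Equiv.trans_apply, ex_inr_castSucc]⟩
      · left
        rw [Equiv.trans_apply, ex_inr_last]
  · rintro (rfl | rfl | ⟨i, rfl⟩)
    · exact ⟨Sum.inr (Fin.last R), mem_plc.2 (Or.inr ⟨_, rfl⟩),
        by rw [Equiv.trans_apply, ex_inr_last]⟩
    · exact ⟨Sum.inl b, mem_plc.2 (Or.inl rfl), by rw [Equiv.trans_apply, ex_inl_of_ne h]⟩
    · exact ⟨Sum.inr i.castSucc, mem_plc.2 (Or.inr ⟨_, rfl⟩),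
        by rw [Equiv.trans_apply, ex_inr_castSucc]⟩

end tri

section eq

variable {F G : Finset (Finset V)}

omit [Fintype V] in
theorem gap_eq {M : ℕ} [NeZero M] {x : St V M R} {k : ℕ} (h0 : 0 < k) (hk : win x.1 (x.2 + k) ∈ F)
    (hlt : ∀ j, 0 < j → j < k → win x.1 (x.2 + j) ∉ F) : gap F x = k := by
  refine le_antisymm (Nat.sInf_le ⟨h0, hk⟩) ?_
  by_contra hcon
  push Not at hcon
  have hmem : gap F x ∈ {k : ℕ | 0 < k ∧ win x.1 (x.2 + k) ∈ F} := Nat.sInf_mem ⟨k, h0, hk⟩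
  exact hlt _ hmem.1 hcon hmem.2

omit [Fintype V] in
/-- There are at most `r` slots which are not special. -/
theorem EqC.card_compl_le (hC : EqC R F) (e : (ZMod (2 * (R + 2)) ⊕ Fin (R + 1)) ≃ V) :
    (sp F e)ᶜ.card ≤ R + 2 := by
  obtain ⟨p, hp⟩ := hC.ex e
  have hlt : (sp F e)ᶜ.card < 2 * (R + 2) := by
    have h1 : (sp F e)ᶜ.card < Fintype.card (ZMod (2 * (R + 2))) := by
      rw [card_compl_lt_iff_nonempty]
      exact ⟨p, mem_sp.2 hp⟩
    rwa [ZMod.card] at h1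
  obtain ⟨σ, hσ⟩ := exists_slots hlt
  by_contra hcon
  push Not at hcon
  set e' : (ZMod (2 * (R + 2)) ⊕ Fin (R + 1)) ≃ V := (Equiv.sumCongr σ (Equiv.refl _)).trans e
    with he'
  have hw : ∀ q, win e' q ∈ F ↔ ¬ (0 < q.val ∧ q.val ≤ (sp F e)ᶜ.card) := by
    intro q
    rw [he', win_perm, ← hσ, mem_compl, not_not, mem_sp]
  have h0 : win e' 0 ∈ F := by
    rw [hw]
    simp
  have h1 := (hC.sum_split (x := (e', 0)) h0).2.1
  have h2 := gap_spec (F := F) (x := (e', 0)) h0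
  simp only [zero_add] at h2
  rw [hw, ZMod.val_natCast_of_lt (by omega)] at h2
  have h3 := gap_pos (F := F) (x := (e', 0)) h0
  omega

omit [Fintype V] in
theorem card_compl_eq (hFG : ∀ (e : (ZMod (2 * (R + 2)) ⊕ Fin (R + 1)) ≃ V) p,
      win e p ∈ G ↔ win e p ∉ F) (hF : EqC R F) (hG : EqC R G)
    (e : (ZMod (2 * (R + 2)) ⊕ Fin (R + 1)) ≃ V) : (sp F e)ᶜ.card = R + 2 := by
  have h1 := hF.card_compl_le e
  have h2 := hG.card_compl_le e
  have h3 : sp G e = (sp F e)ᶜ := by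
    ext q
    rw [mem_sp, mem_compl, mem_sp, hFG]
  have h4 := card_add_card_compl (sp G e)
  rw [ZMod.card, h3] at h4
  rw [h3] at h2
  omega

omit [Fintype V] in
/-- The second step of a path which uses the whole circle. -/
theorem EqC.tri_mem (hR : 1 ≤ R) (hF : EqC R F)
    (e : (ZMod (2 * (R + 2)) ⊕ Fin (R + 1)) ≃ V) (hcard : (sp F e)ᶜ.card = R + 2)
    {a b : ZMod (2 * (R + 2))} (hab : a ≠ b) (ha : win e a ∈ F) (hb : win e b ∈ F) :
    tri e a b ∈ F := by
  have v1 : ((R + 3 : ℕ) : ZMod (2 * (R + 2))).val = R + 3 := ZMod.val_natCast_of_lt (by omega)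
  have v2 : ((R + 4 : ℕ) : ZMod (2 * (R + 2))).val = R + 4 := ZMod.val_natCast_of_lt (by omega)
  have hne : ((R + 3 : ℕ) : ZMod (2 * (R + 2))) ≠ ((R + 4 : ℕ) : ZMod (2 * (R + 2))) := by
    intro h
    have h1 := congrArg ZMod.val h
    rw [v1, v2] at h1
    omega
  obtain ⟨σ, hσ, hσ1, hσ2⟩ := exists_slots' (B := (sp F e)ᶜ) (a := a) (b := b)
    (q₁ := ((R + 3 : ℕ) : ZMod (2 * (R + 2)))) (q₂ := ((R + 4 : ℕ) : ZMod (2 * (R + 2))))
    (by rw [hcard]; omega) (by rw [mem_compl, not_not, mem_sp]; exact ha)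
    (by rw [mem_compl, not_not, mem_sp]; exact hb) hab hne (by rw [v1, hcard]; omega)
    (by rw [v2, hcard]; omega)
  set e' : (ZMod (2 * (R + 2)) ⊕ Fin (R + 1)) ≃ V := (Equiv.sumCongr σ (Equiv.refl _)).trans e
    with he'
  have hw : ∀ q, win e' q ∈ F ↔ ¬ (0 < q.val ∧ q.val ≤ R + 2) := by
    intro q
    have h := hσ q
    rw [hcard] at h
    rw [he', win_perm, ← h, mem_compl, not_not, mem_sp]
  have h0 : win e' 0 ∈ F := by
    rw [hw]
    simp
  have hgap : gap F ((e', 0) : St V (2 * (R + 2)) R) = R + 3 := by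
    refine gap_eq (by omega) ?_ ?_
    · rw [hw, zero_add, v1]
      omega
    · intro j hj0 hj
      rw [hw, zero_add, ZMod.val_natCast_of_lt (by omega)]
      omega
  have h1 := (hF.sum_split (x := (e', 0)) h0).2.2 hgap
  have h2 := gap_spec (F := F) (win_stp (x := (e', 0)) h0)
  rw [h1, stp, hgap] at h2
  simp only [zero_add] at h2
  have h3 : ((R + 3 : ℕ) : ZMod (2 * (R + 2))) + ((1 : ℕ) : ZMod (2 * (R + 2))) =
      ((R + 4 : ℕ) : ZMod (2 * (R + 2))) := by
    rw [← Nat.cast_add]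
  rw [h3, win_ex_of_ne hne.symm] at h2
  have h4 : tri e' ((R + 3 : ℕ) : ZMod (2 * (R + 2))) ((R + 4 : ℕ) : ZMod (2 * (R + 2))) =
      tri e a b := by
    rw [tri, tri]
    congr 1
    · rw [he', Equiv.trans_apply, Equiv.sumCongr_apply, Sum.map_inl, hσ1]
    · congr 1
      rw [he', Equiv.trans_apply, Equiv.sumCongr_apply, Sum.map_inl, hσ2]
  rwa [h4] at h2

omit [Fintype V] in
/-- The exchange of a slot with the oldest track. -/
theorem EqC.win_mem (hR : 1 ≤ R) (hF : EqC R F)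
    (hcard : ∀ e : (ZMod (2 * (R + 2)) ⊕ Fin (R + 1)) ≃ V, (sp F e)ᶜ.card = R + 2)
    (e : (ZMod (2 * (R + 2)) ⊕ Fin (R + 1)) ≃ V) {a b : ZMod (2 * (R + 2))} (hab : a ≠ b)
    (ha : win e a ∈ F) (h : tri e a b ∈ F) : win e b ∈ F := by
  set e' : (ZMod (2 * (R + 2)) ⊕ Fin (R + 1)) ≃ V :=
    (Equiv.swap (Sum.inl a) (Sum.inr 0)).trans e with he'
  have g1 : e' (Sum.inl a) = e (Sum.inr 0) := by
    rw [he', Equiv.trans_apply, Equiv.swap_apply_left]
  have g2 : e' (Sum.inr 0) = e (Sum.inl a) := by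
    rw [he', Equiv.trans_apply, Equiv.swap_apply_right]
  have g3 : e' (Sum.inl b) = e (Sum.inl b) := by
    rw [he', Equiv.trans_apply, Equiv.swap_apply_of_ne_of_ne]
    · exact fun h => hab (Sum.inl_injective h).symm
    · simp
  have g4 : ∀ i : Fin R, e' (Sum.inr i.succ) = e (Sum.inr i.succ) := by
    intro i
    rw [he', Equiv.trans_apply, Equiv.swap_apply_of_ne_of_ne]
    · simp
    · simp
  have h1 : win e' a = win e a := by
    ext v
    simp only [mem_win, g1, g2, g4]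
    tauto
  have h2 : win e' b = tri e a b := by
    ext v
    simp only [mem_win, mem_tri, g2, g3, g4]
    tauto
  have h3 : tri e' a b = win e b := by
    ext v
    simp only [mem_win, mem_tri, g1, g3, g4]
    tauto
  have h4 := hF.tri_mem hR e' (hcard e') hab (by rw [h1]; exact ha) (by rw [h2]; exact h)
  rwa [h3] at h4

theorem not_eqC (hR : 1 ≤ R) (hFG : ∀ (e : (ZMod (2 * (R + 2)) ⊕ Fin (R + 1)) ≃ V) p,
      win e p ∈ G ↔ win e p ∉ F)
    (hFG' : ∀ A : Finset V, A.card = R + 2 → (A ∈ G ↔ A ∉ F))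
    (hF : EqC R F) (hG : EqC R G) (e : (ZMod (2 * (R + 2)) ⊕ Fin (R + 1)) ≃ V) : False := by
  have hGF : ∀ (e : (ZMod (2 * (R + 2)) ⊕ Fin (R + 1)) ≃ V) p, win e p ∈ F ↔ win e p ∉ G := by
    intro e p
    rw [hFG, not_not]
  obtain ⟨a, ha⟩ := hF.ex e
  obtain ⟨b, hb⟩ := hG.ex e
  have hab : a ≠ b := by
    rintro rfl
    exact (hFG e a).1 hb ha
  by_cases hS : tri e a b ∈ F
  · exact (hFG e b).1 hb (hF.win_mem hR (card_compl_eq hFG hF hG) e hab ha hS)
  · have hS' : tri e b a ∈ G := by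
      have h1 : tri e b a = tri e a b := by
        ext v
        simp only [mem_tri]
        tauto
      rw [h1, hFG' _ ?_]
      · exact hS
      · rw [← win_ex_of_ne hab.symm, card_win]
    exact (hGF e a).1 ha (hG.win_mem hR (card_compl_eq hGF hG hF) e hab.symm hb hS')

end eq

/-- In a colouring with two colours of the `r`-subsets of a set with `3 r - 1` elements, `r ≥ 3`, there
is a monochromatic tight path with `2 r` vertices. -/
theorem exists_mono_eq {r : ℕ} (hr : 3 ≤ r) (c : Finset V → Bool)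
    (hV : Fintype.card V + 1 = 3 * r) :
    ∃ (κ : Bool) (P : List V), P.length = 2 * r ∧ P.Nodup ∧
      ∀ i, i + r ≤ P.length → c ((P.drop i).take r).toFinset = κ := by
  obtain ⟨R, rfl⟩ := Nat.exists_eq_add_of_le' (show 2 ≤ r by omega)
  by_contra hcon
  push Not at hcon
  have hno : ∀ κ : Bool, ∀ x : St V (2 * (R + 2)) R,
      win x.1 x.2 ∈ (powersetCard (R + 2) (univ : Finset V)).filter (fun A => c A = κ) →
      2 * (R + 2) ≤ tot ((powersetCard (R + 2) (univ : Finset V)).filter (fun A => c A = κ))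
        (R + 2) x := by
    intro κ x hx
    by_contra hlt
    push Not at hlt
    obtain ⟨P, hP, hnd, hw⟩ := exists_path_of_tot_lt hx hlt
    obtain ⟨i, hi, hne⟩ := hcon κ P (by omega) hnd
    exact hne (mem_filter.1 (hw i hi)).2
  have hmem : ∀ (κ : Bool) (A : Finset V), A.card = R + 2 →
      (A ∈ (powersetCard (R + 2) (univ : Finset V)).filter (fun A => c A = κ) ↔ c A = κ) := by
    intro κ A hA
    rw [mem_filter, mem_powersetCard]
    exact and_iff_right ⟨subset_univ _, hA⟩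
  have hFG : ∀ A : Finset V, A.card = R + 2 →
      (A ∈ (powersetCard (R + 2) (univ : Finset V)).filter (fun A => c A = false) ↔
        A ∉ (powersetCard (R + 2) (univ : Finset V)).filter (fun A => c A = true)) := by
    intro A hA
    rw [hmem _ _ hA, hmem _ _ hA, Bool.not_eq_true]
  have hGF : ∀ A : Finset V, A.card = R + 2 →
      (A ∈ (powersetCard (R + 2) (univ : Finset V)).filter (fun A => c A = true) ↔
        A ∉ (powersetCard (R + 2) (univ : Finset V)).filter (fun A => c A = false)) := by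
    intro A hA
    rw [hmem _ _ hA, hmem _ _ hA, Bool.not_eq_false]
  have hF := eqC_of (R := R) (fun e p => hFG _ (card_win e p)) (hno true) (hno false)
  have hG := eqC_of (R := R) (fun e p => hGF _ (card_win e p)) (hno false) (hno true)
  have hcard : Fintype.card (ZMod (2 * (R + 2)) ⊕ Fin (R + 1)) = Fintype.card V := by
    rw [Fintype.card_sum, ZMod.card, Fintype.card_fin]
    omega
  exact not_eqC (by omega) (fun e p => hFG _ (card_win e p)) hFG hF hG
    (Fintype.equivOfCardEq hcard)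

end Pool.Agent.Lib.TPath
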