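import Pool.Agent.Lib.TPath.Path

/-!
# Long tight paths: the density theorem

A family `F` of `r`-subsets of an `n`-set with `L * C(n, r - 1) < r * |F|` contains a tight path with
`L + 1` edges.
-/

set_option autoImplicit false

namespace Pool.Agent.Lib.TPath

open Finset

variable {V : Type*} [Fintype V] [DecidableEq V]

theorem exists_tp_aux {M R L : ℕ} [NeZero M] {F : Finset (Finset V)}
    (hV : Fintype.card V = M + (R + 1)) (hF : ∀ A ∈ F, A.card = R + 2)
    (h : L * (Fintype.card V).choose (R + 2) < M * F.card) :
    ∃ P : List V, P.length = R + 2 + L ∧ IsTP (R + 2) F P := by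
  have hne : Nonempty (St V M R) := by
    have h1 : Fintype.card (ZMod M ⊕ Fin (R + 1)) = Fintype.card V := by
      rw [Fintype.card_sum, ZMod.card, Fintype.card_fin, hV]
    exact ⟨(Fintype.equivOfCardEq h1, 0)⟩
  have hpos : 0 < Fintype.card (St V M R) := Fintype.card_pos
  have hF0 : 0 < F.card := by
    rcases Nat.eq_zero_or_pos F.card with h0 | h0
    · rw [h0, mul_zero] at h
      exact absurd h (Nat.not_lt_zero _)
    · exact h0
  obtain ⟨A, hA⟩ := card_pos.1 hF0
  have hC : 0 < (Fintype.card V).choose (R + 2) := by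
    refine Nat.choose_pos ?_
    rw [← hF A hA]
    exact card_le_univ A
  have hgd := card_gd (M := M) (R := R) hF
  have hlt : L * Fintype.card (St V M R) < M * (gd M R F).card := by
    refine lt_of_mul_lt_mul_right ?_ (Nat.zero_le ((Fintype.card V).choose (R + 2)))
    calc L * Fintype.card (St V M R) * (Fintype.card V).choose (R + 2)
        = L * (Fintype.card V).choose (R + 2) * Fintype.card (St V M R) := by ring
      _ < M * F.card * Fintype.card (St V M R) := Nat.mul_lt_mul_of_pos_right h hpos
      _ = M * (F.card * Fintype.card (St V M R)) := by ring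
      _ = M * ((gd M R F).card * (Fintype.card V).choose (R + 2)) := by rw [hgd]
      _ = M * (gd M R F).card * (Fintype.card V).choose (R + 2) := by ring
  obtain ⟨x, hx, hlt'⟩ := exists_tot_lt hlt
  exact exists_path_of_tot_lt (mem_gd.1 hx) hlt'

/-- **The density theorem for tight paths.** -/
theorem exists_tp {r L : ℕ} (hr : 2 ≤ r) {F : Finset (Finset V)} (hF : ∀ A ∈ F, A.card = r)
    (h : L * (Fintype.card V).choose (r - 1) < r * F.card) :
    ∃ P : List V, P.length = r + L ∧ IsTP r F P := by
  obtain ⟨R, rfl⟩ := Nat.exists_eq_add_of_le' hr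
  have hF0 : 0 < F.card := by
    rcases Nat.eq_zero_or_pos F.card with h0 | h0
    · rw [h0, mul_zero] at h
      exact absurd h (Nat.not_lt_zero _)
    · exact h0
  obtain ⟨A, hA⟩ := card_pos.1 hF0
  have hn : R + 2 ≤ Fintype.card V := by
    rw [← hF A hA]
    exact card_le_univ A
  obtain ⟨m, hm⟩ := Nat.exists_eq_add_of_le' hn
  have hV : Fintype.card V = (m + 1) + (R + 1) := by omega
  refine exists_tp_aux (M := m + 1) hV hF ?_
  have h1 : (Fintype.card V).choose (R + 2) * (R + 2) =
      (Fintype.card V).choose (R + 1) * (m + 1) := by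
    have h2 := Nat.choose_succ_right_eq (Fintype.card V) (R + 1)
    rw [h2]
    congr 1
    omega
  refine lt_of_mul_lt_mul_right ?_ (Nat.zero_le (R + 2))
  calc L * (Fintype.card V).choose (R + 2) * (R + 2)
      = L * ((Fintype.card V).choose (R + 2) * (R + 2)) := by ring
    _ = L * (Fintype.card V).choose (R + 1) * (m + 1) := by rw [h1]; ring
    _ < (R + 2) * F.card * (m + 1) := Nat.mul_lt_mul_of_pos_right h (Nat.succ_pos m)
    _ = (m + 1) * F.card * (R + 2) := by ring

/-- In a colouring with `q` colours of the `r`-subsets of a set with more than `q L + r - 1` elements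
there is a monochromatic tight path with `L + 1` edges. -/
theorem exists_mono {r L q : ℕ} (hr : 2 ≤ r) (c : Finset V → Fin q)
    (h : q * L + r ≤ Fintype.card V) :
    ∃ (κ : Fin q) (P : List V), P.length = r + L ∧ P.Nodup ∧
      ∀ i, i + r ≤ P.length → c ((P.drop i).take r).toFinset = κ := by
  by_contra hcon
  push Not at hcon
  have h1 : ∀ κ : Fin q, r * ((powersetCard r (univ : Finset V)).filter fun A => c A = κ).card ≤
      L * (Fintype.card V).choose (r - 1) := by
    intro κ
    by_contra h2
    push Not at h2
    obtain ⟨P, hP, hnd, hw⟩ := exists_tp hr (F := (powersetCard r univ).filter fun A => c A = κ)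
      (fun A hA => (mem_powersetCard.1 (mem_filter.1 hA).1).2) h2
    obtain ⟨i, hi, hne⟩ := hcon κ P hP hnd
    exact hne (mem_filter.1 (hw i hi)).2
  have h2 : (powersetCard r (univ : Finset V)).card =
      ∑ κ : Fin q, ((powersetCard r (univ : Finset V)).filter fun A => c A = κ).card :=
    card_eq_sum_card_fiberwise fun A _ => mem_coe.2 (mem_univ (c A))
  have h3 : r * (Fintype.card V).choose r ≤ q * (L * (Fintype.card V).choose (r - 1)) := by
    rw [card_powersetCard, card_univ] at h2
    rw [h2, mul_sum]
    calc _ ≤ ∑ _κ : Fin q, L * (Fintype.card V).choose (r - 1) := sum_le_sum fun κ _ => h1 κ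
      _ = _ := by rw [sum_const, card_univ, Fintype.card_fin, smul_eq_mul]
  obtain ⟨R, rfl⟩ := Nat.exists_eq_add_of_le' (show 1 ≤ r by omega)
  rw [Nat.add_sub_cancel] at h3
  have h4 := Nat.choose_succ_right_eq (Fintype.card V) R
  have h5 : 0 < (Fintype.card V).choose R := Nat.choose_pos (by omega)
  have h6 : (Fintype.card V).choose R * (Fintype.card V - R) ≤ q * L * (Fintype.card V).choose R := by
    rw [← h4]
    calc _ = (R + 1) * (Fintype.card V).choose (R + 1) := by ring
      _ ≤ _ := h3
      _ = _ := by ring
  rw [mul_comm] at h6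
  have h7 := Nat.le_of_mul_le_mul_right h6 h5
  omega

end Pool.Agent.Lib.TPath
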