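import Pool.Agent.Lib.TPath.Count

/-!
# Long tight paths: from a state which moves the mark by less than one turn to a tight path
-/

set_option autoImplicit false

namespace Pool.Agent.Lib.TPath

open Finset

variable {V : Type*} [DecidableEq V] {M R : ℕ} [NeZero M] {F : Finset (Finset V)}

/-- The original places of the vertices of the path. -/
noncomputable def phi (F : Finset (Finset V)) (x : St V M R) (i : ℕ) : ZMod M ⊕ Fin (R + 1) :=
  if h : 0 < i ∧ i ≤ R + 1 then Sum.inr ⟨i - 1, by omega⟩
  else Sum.inl (x.2 + (tot F (i - (R + 1)) x : ZMod M))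

omit [NeZero M] in
theorem tot_zero (x : St V M R) : tot F 0 x = 0 := rfl

omit [NeZero M] in
theorem tot_succ (x : St V M R) (j : ℕ) :
    tot F (j + 1) x = tot F j x + gap F ((stp F)^[j] x) := by
  rw [tot, sum_range_succ, tot]

omit [NeZero M] in
theorem tot_mono (x : St V M R) : Monotone fun j => tot F j x :=
  monotone_nat_of_le_succ fun j => by rw [tot_succ]; exact Nat.le_add_right _ _

theorem good_iterate {x : St V M R} (hx : win x.1 x.2 ∈ F) (j : ℕ) :
    win ((stp F)^[j] x).1 ((stp F)^[j] x).2 ∈ F := by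
  induction j with
  | zero => exact hx
  | succ j ih =>
    rw [Function.iterate_succ_apply']
    exact win_stp ih

theorem tot_strict {x : St V M R} (hx : win x.1 x.2 ∈ F) : StrictMono fun j => tot F j x :=
  strictMono_nat_of_lt_succ fun j => by
    rw [tot_succ]
    exact Nat.lt_add_of_pos_right (gap_pos (good_iterate hx j))

omit [NeZero M] in
theorem mark_iterate (x : St V M R) (j : ℕ) :
    ((stp F)^[j] x).2 = x.2 + (tot F j x : ZMod M) := by
  induction j with
  | zero => simp [tot_zero]
  | succ j ih =>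
    rw [Function.iterate_succ_apply', tot_succ, Nat.cast_add, ← add_assoc, ← ih]
    rfl

omit [NeZero M] in
theorem cast_inj {a b : ℕ} (ha : a < M) (hb : b < M) {p : ZMod M}
    (h : p + (a : ZMod M) = p + (b : ZMod M)) : a = b := by
  have h1 : (a : ZMod M) = (b : ZMod M) := add_left_cancel h
  rw [ZMod.natCast_eq_natCast_iff'] at h1
  rwa [Nat.mod_eq_of_lt ha, Nat.mod_eq_of_lt hb] at h1

omit [NeZero M] in
theorem phi_of_gt {x : St V M R} {j : ℕ} : phi F x (j + 1 + R + 1) =
    Sum.inl (x.2 + (tot F (j + 1) x : ZMod M)) := by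
  rw [phi, dif_neg (by omega)]
  congr 4
  omega

/-- The state after `j` steps in terms of the original one. -/
theorem state_iterate {x : St V M R} (hx : win x.1 x.2 ∈ F) (j : ℕ) (hj : tot F j x < M) :
    (∀ m, tot F j x < m → m < M →
      ((stp F)^[j] x).1 (Sum.inl (x.2 + (m : ZMod M))) = x.1 (Sum.inl (x.2 + (m : ZMod M)))) ∧
    ((stp F)^[j] x).1 (Sum.inl ((stp F)^[j] x).2) = x.1 (phi F x j) ∧
    ∀ i : Fin (R + 1), ((stp F)^[j] x).1 (Sum.inr i) = x.1 (phi F x (j + 1 + i)) := by
  induction j with
  | zero =>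
    refine ⟨fun m _ _ => rfl, ?_, fun i => ?_⟩
    · rw [phi, dif_neg (by omega)]
      simp [tot_zero]
    · have hi := i.2
      rw [phi, dif_pos (by omega)]
      simp
  | succ j ih =>
    have hlt : tot F j x < tot F (j + 1) x := tot_strict hx (Nat.lt_succ_self j)
    obtain ⟨ih1, ih2, ih3⟩ := ih (hlt.trans hj)
    have hmark : ((stp F)^[j + 1] x).2 = x.2 + (tot F (j + 1) x : ZMod M) := mark_iterate x (j + 1)
    have hp : (((stp F)^[j] x).2 + (gap F ((stp F)^[j] x) : ZMod M) : ZMod M) =
        x.2 + (tot F (j + 1) x : ZMod M) := by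
      rw [← hmark, Function.iterate_succ_apply']
      rfl
    have hst : ((stp F)^[j + 1] x).1 =
        (ex R (x.2 + (tot F (j + 1) x : ZMod M))).trans ((stp F)^[j] x).1 := by
      rw [← hp, Function.iterate_succ_apply']
      rfl
    refine ⟨fun m hm hmM => ?_, ?_, fun i => ?_⟩
    · rw [hst, Equiv.trans_apply, ex_inl_of_ne, ih1 m (hlt.trans hm) hmM]
      intro h
      exact absurd (cast_inj hmM hj h) hm.ne'
    · rw [hmark, hst, Equiv.trans_apply, ex_inl_self, ih3 0]
      rfl
    · rcases Fin.eq_castSucc_or_eq_last i with ⟨i', rfl⟩ | rfl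
      · rw [hst, Equiv.trans_apply, ex_inr_castSucc, ih3 i'.succ]
        congr 2
        simp
        ring
      · rw [hst, Equiv.trans_apply, ex_inr_last, ih1 _ hlt hj]
        congr 1
        rw [show j + 1 + 1 + ((Fin.last R : Fin (R + 1)) : ℕ) = j + 1 + R + 1 by
          rw [Fin.val_last]; ring]
        exact phi_of_gt.symm

theorem phi_inj {x : St V M R} (hx : win x.1 x.2 ∈ F) {L : ℕ} (hL : tot F L x < M) :
    Set.InjOn (phi F x) (Set.Iio (R + 2 + L)) := by
  have hlt : ∀ i, i < R + 2 + L → ¬ (0 < i ∧ i ≤ R + 1) → tot F (i - (R + 1)) x < M := fun i hi _ =>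
    lt_of_le_of_lt (tot_mono x (by omega)) hL
  intro i hi j hj h
  rw [Set.mem_Iio] at hi hj
  by_cases h1 : 0 < i ∧ i ≤ R + 1
  · by_cases h2 : 0 < j ∧ j ≤ R + 1
    · rw [phi, phi, dif_pos h1, dif_pos h2] at h
      have h3 := congrArg Fin.val (Sum.inr_injective h)
      simp only at h3
      omega
    · rw [phi, phi, dif_pos h1, dif_neg h2] at h
      exact absurd h (by simp)
  · by_cases h2 : 0 < j ∧ j ≤ R + 1
    · rw [phi, phi, dif_neg h1, dif_pos h2] at h
      exact absurd h (by simp)
    · rw [phi, phi, dif_neg h1, dif_neg h2] at h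
      have h3 := cast_inj (hlt i hi h1) (hlt j hj h2) (Sum.inl_injective h)
      have h4 := (tot_strict hx).injective h3
      omega

/-- The window after `j` steps. -/
theorem win_iterate {x : St V M R} (hx : win x.1 x.2 ∈ F) (j : ℕ) (hj : tot F j x < M) :
    (range (R + 2)).image (fun i => x.1 (phi F x (j + i))) ∈ F := by
  have h := good_iterate hx j
  obtain ⟨-, h2, h3⟩ := state_iterate hx j hj
  have h4 : win ((stp F)^[j] x).1 ((stp F)^[j] x).2 =
      (range (R + 2)).image (fun i => x.1 (phi F x (j + i))) := by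
    ext v
    rw [win, mem_image, mem_image]
    constructor
    · rintro ⟨a, ha, rfl⟩
      rcases mem_plc.1 ha with rfl | ⟨i, rfl⟩
      · exact ⟨0, by simp, h2.symm⟩
      · refine ⟨1 + i, by rw [mem_range]; omega, ?_⟩
        rw [h3 i, add_assoc]
    · rintro ⟨i, hi, rfl⟩
      rw [mem_range] at hi
      rcases i with _ | i
      · exact ⟨_, mem_plc.2 (Or.inl rfl), h2⟩
      · refine ⟨Sum.inr ⟨i, by omega⟩, mem_plc.2 (Or.inr ⟨_, rfl⟩), ?_⟩
        rw [h3]
        congr 2
        simp only
        ring
  rw [← h4]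
  exact h

/-- `P` is a tight path with all its edges in `F`. -/
def IsTP (r : ℕ) (F : Finset (Finset V)) (P : List V) : Prop :=
  P.Nodup ∧ ∀ i, i + r ≤ P.length → ((P.drop i).take r).toFinset ∈ F

theorem toFinset_window (f : ℕ → V) (n r j : ℕ) (h : j + r ≤ n) :
    ((((List.range n).map f).drop j).take r).toFinset = (range r).image fun i => f (j + i) := by
  ext v
  rw [List.mem_toFinset, List.mem_iff_getElem, mem_image]
  constructor
  · rintro ⟨i, hi, rfl⟩
    rw [List.length_take, List.length_drop, List.length_map, List.length_range] at hi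
    refine ⟨i, by rw [mem_range]; omega, ?_⟩
    simp
  · rintro ⟨i, hi, rfl⟩
    rw [mem_range] at hi
    refine ⟨i, ?_, ?_⟩
    · rw [List.length_take, List.length_drop, List.length_map, List.length_range]
      omega
    · simp

theorem exists_path_of_tot_lt {x : St V M R} (hx : win x.1 x.2 ∈ F) {L : ℕ} (hL : tot F L x < M) :
    ∃ P : List V, P.length = R + 2 + L ∧ IsTP (R + 2) F P := by
  refine ⟨(List.range (R + 2 + L)).map fun i => x.1 (phi F x i), by simp, ?_, ?_⟩
  · refine List.Nodup.map_on ?_ List.nodup_range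
    intro i hi j hj h
    rw [List.mem_range] at hi hj
    exact phi_inj hx hL hi hj (x.1.injective h)
  · intro j hj
    rw [List.length_map, List.length_range] at hj
    rw [toFinset_window _ _ _ _ hj]
    exact win_iterate hx j (lt_of_le_of_lt (tot_mono x (by omega)) hL)

end Pool.Agent.Lib.TPath
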