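import Mathlib

/-!
# Long tight paths: the scanning process

`V` is a finite set with `M + (R + 1)` elements, `F` a family of `(R + 2)`-subsets. A state places
all the elements of `V` on the slots `ZMod M` of a circle and on `R + 1` tracks and marks one slot;
its window is the set of the `R + 2` elements on the tracks and at the mark. The mark moves forward to
the next slot whose element completes the tracks to a set in `F`; then this element is exchanged with
the oldest element on the tracks. This is a bijection of the set of the states with window in `F`, so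
it preserves the uniform measure, and the mean of the number of slots that the mark moves is at most
the number of all states divided by the number of the states with window in `F`.
-/

set_option autoImplicit false

namespace Pool.Agent.Lib.TPath

open Finset

variable {V : Type*} {M R : ℕ}

/-- A state. -/
abbrev St (V : Type*) (M R : ℕ) : Type _ := ((ZMod M ⊕ Fin (R + 1)) ≃ V) × ZMod M

/-- The places of the window: the tracks and the mark `p`. -/
def plc (R : ℕ) {M : ℕ} (p : ZMod M) : Finset (ZMod M ⊕ Fin (R + 1)) :=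
  insert (Sum.inl p) (univ.image Sum.inr)

theorem mem_plc {p : ZMod M} {a : ZMod M ⊕ Fin (R + 1)} :
    a ∈ plc R p ↔ a = Sum.inl p ∨ ∃ i, a = Sum.inr i := by
  rw [plc, mem_insert, mem_image]
  constructor
  · rintro (h | ⟨i, -, h⟩)
    · exact Or.inl h
    · exact Or.inr ⟨i, h.symm⟩
  · rintro (h | ⟨i, h⟩)
    · exact Or.inl h
    · exact Or.inr ⟨i, mem_univ _, h.symm⟩

theorem card_plc (p : ZMod M) : (plc R p).card = R + 2 := by
  rw [plc, card_insert_of_notMem, card_image_of_injective _ Sum.inr_injective, card_univ,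
    Fintype.card_fin]
  intro h
  rw [mem_image] at h
  obtain ⟨i, -, hi⟩ := h
  exact absurd hi (by simp)

/-- The exchange of the slot `p` with the oldest track. -/
def ex (R : ℕ) {M : ℕ} (p : ZMod M) : (ZMod M ⊕ Fin (R + 1)) ≃ (ZMod M ⊕ Fin (R + 1)) :=
  (Equiv.sumCongr (Equiv.refl _) (finRotate (R + 1))).trans (Equiv.swap (Sum.inl p) (Sum.inr 0))

theorem ex_inl_self (p : ZMod M) : ex R p (Sum.inl p) = Sum.inr 0 := by
  simp [ex]

theorem ex_inl_of_ne {p q : ZMod M} (h : q ≠ p) : ex R p (Sum.inl q) = Sum.inl q := by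
  have h1 : (Sum.inl q : ZMod M ⊕ Fin (R + 1)) ≠ Sum.inl p := fun h' => h (Sum.inl_injective h')
  have h2 : (Sum.inl q : ZMod M ⊕ Fin (R + 1)) ≠ Sum.inr 0 := by simp
  simp only [ex, Equiv.trans_apply, Equiv.sumCongr_apply, Sum.map_inl, Equiv.refl_apply]
  exact Equiv.swap_apply_of_ne_of_ne h1 h2

theorem ex_inr_last (p : ZMod M) : ex R p (Sum.inr (Fin.last R)) = Sum.inl p := by
  simp [ex]

theorem ex_inr_castSucc (p : ZMod M) (i : Fin R) :
    ex R p (Sum.inr i.castSucc) = Sum.inr i.succ := by
  have h1 : (Sum.inr i.succ : ZMod M ⊕ Fin (R + 1)) ≠ Sum.inl p := by simp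
  have h2 : (Sum.inr i.succ : ZMod M ⊕ Fin (R + 1)) ≠ Sum.inr 0 := by simp
  have h3 : finRotate (R + 1) i.castSucc = i.succ := by
    rw [finRotate_apply]
    exact Fin.coeSucc_eq_succ
  simp only [ex, Equiv.trans_apply, Equiv.sumCongr_apply, Sum.map_inr, h3]
  exact Equiv.swap_apply_of_ne_of_ne h1 h2

theorem ex_mem {p : ZMod M} {a : ZMod M ⊕ Fin (R + 1)} (h : a ∈ plc R p) : ex R p a ∈ plc R p := by
  rw [mem_plc] at h
  rw [mem_plc]
  rcases h with rfl | ⟨i, rfl⟩
  · exact Or.inr ⟨0, ex_inl_self p⟩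
  · rcases Fin.eq_castSucc_or_eq_last i with ⟨j, rfl⟩ | rfl
    · exact Or.inr ⟨_, ex_inr_castSucc p j⟩
    · exact Or.inl (ex_inr_last p)

theorem image_ex (p : ZMod M) : (plc R p).image (ex R p) = plc R p := by
  refine eq_of_subset_of_card_le ?_ ?_
  · intro a ha
    obtain ⟨b, hb, rfl⟩ := mem_image.1 ha
    exact ex_mem hb
  · rw [card_image_of_injective _ (ex R p).injective]

section dec

variable [DecidableEq V]

/-- The set of the elements on the tracks and at the slot `p`. -/
def win (e : (ZMod M ⊕ Fin (R + 1)) ≃ V) (p : ZMod M) : Finset V := (plc R p).image e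

theorem card_win (e : (ZMod M ⊕ Fin (R + 1)) ≃ V) (p : ZMod M) : (win e p).card = R + 2 := by
  rw [win, card_image_of_injective _ e.injective, card_plc]

theorem win_ex (e : (ZMod M ⊕ Fin (R + 1)) ≃ V) (p : ZMod M) :
    win ((ex R p).trans e) p = win e p := by
  rw [win, win]
  conv_rhs => rw [← image_ex p, image_image]
  rfl

/-- The number of slots that the mark moves. -/
noncomputable def gap (F : Finset (Finset V)) (x : St V M R) : ℕ :=
  sInf {k : ℕ | 0 < k ∧ win x.1 (x.2 + k) ∈ F}

/-- One step. -/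
noncomputable def stp (F : Finset (Finset V)) (x : St V M R) : St V M R :=
  ((ex R (x.2 + gap F x : ZMod M)).trans x.1, x.2 + gap F x)

variable {F : Finset (Finset V)} [NeZero M]

theorem gap_mem' {x : St V M R} (hx : win x.1 x.2 ∈ F) :
    gap F x ∈ {k : ℕ | 0 < k ∧ win x.1 (x.2 + k) ∈ F} := by
  refine Nat.sInf_mem ⟨M, Nat.pos_of_ne_zero (NeZero.ne M), ?_⟩
  rw [ZMod.natCast_self, add_zero]
  exact hx

theorem gap_pos {x : St V M R} (hx : win x.1 x.2 ∈ F) : 0 < gap F x := (gap_mem' hx).1

theorem gap_spec {x : St V M R} (hx : win x.1 x.2 ∈ F) : win x.1 (x.2 + gap F x) ∈ F :=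
  (gap_mem' hx).2

omit [NeZero M] in
theorem gap_min {x : St V M R} {k : ℕ} (h0 : 0 < k) (hk : k < gap F x) :
    win x.1 (x.2 + k) ∉ F := fun h => absurd (Nat.sInf_le (⟨h0, h⟩ : k ∈ {k : ℕ | 0 < k ∧
      win x.1 (x.2 + k) ∈ F})) (not_le.2 hk)

theorem win_stp {x : St V M R} (hx : win x.1 x.2 ∈ F) : win (stp F x).1 (stp F x).2 ∈ F := by
  rw [stp, win_ex]
  exact gap_spec hx

omit [NeZero M] in
/-- Two marks with the same end. -/
theorem mark_unique {e : (ZMod M ⊕ Fin (R + 1)) ≃ V} {p q : ZMod M} {i j : ℕ}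
    (hq : win e q ∈ F) (hi : i ≤ j) (hj : j ≤ gap F (e, p)) (h : p + j = q + i)
    (hlt : j < gap F (e, p) ∨ 0 < i) : p = q ∧ j = i := by
  rcases Nat.eq_or_lt_of_le hi with rfl | hlt'
  · exact ⟨add_right_cancel h, rfl⟩
  · exfalso
    have h1 : q = p + ((j - i : ℕ) : ZMod M) := by
      rw [Nat.cast_sub hi, ← add_sub_assoc, h, add_sub_cancel_right]
    refine gap_min (F := F) (x := (e, p)) (k := j - i) (by omega) ?_ ?_
    · rcases hlt with h2 | h2 <;> omega
    · rw [← h1]
      exact hq

/-- The step is injective on the states with window in `F`. -/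
theorem stp_inj {x y : St V M R} (hx : win x.1 x.2 ∈ F) (hy : win y.1 y.2 ∈ F)
    (h : stp F x = stp F y) : x = y := by
  have h2 : (x.2 + gap F x : ZMod M) = y.2 + gap F y := congrArg Prod.snd h
  have h1 : (ex R (x.2 + gap F x : ZMod M)).trans x.1 = (ex R (y.2 + gap F y : ZMod M)).trans y.1 :=
    congrArg Prod.fst h
  rw [h2] at h1
  have h3 : x.1 = y.1 := by
    have h4 := congrArg (fun e => (ex R (y.2 + gap F y : ZMod M)).symm.trans e) h1
    simpa only [← Equiv.trans_assoc, Equiv.symm_trans_self, Equiv.refl_trans] using h4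
  obtain ⟨e, p⟩ := x
  obtain ⟨e', q⟩ := y
  obtain rfl : e = e' := h3
  simp only at h2 hx hy
  rcases le_total (gap F (e, q)) (gap F (e, p)) with hle | hle
  · obtain ⟨rfl, -⟩ := mark_unique hy hle le_rfl h2 (Or.inr (gap_pos hy))
    rfl
  · obtain ⟨rfl, -⟩ := mark_unique hx hle le_rfl h2.symm (Or.inr (gap_pos hx))
    rfl

end dec

end Pool.Agent.Lib.TPath
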