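import Pool.Agent.Lib.TPath.Equal

/-!
# Two tight paths: the short regime

Every colouring with two colours of the `r`-subsets of a set with less than `3 r` elements, `r ≥ 3`,
admits a partition of the set into a red and a blue tight path.
-/

set_option autoImplicit false

namespace Pool.Agent.Lib.TPath

open Finset

variable {V : Type*} [Fintype V] [DecidableEq V]

/-- In a colouring with two colours of the `r`-subsets of a set with at least `2 L + r` elements there is
a monochromatic tight path with `r + L` vertices. -/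
theorem exists_mono_bool {r L : ℕ} (hr : 2 ≤ r) (c : Finset V → Bool)
    (h : 2 * L + r ≤ Fintype.card V) :
    ∃ (κ : Bool) (P : List V), P.length = r + L ∧ P.Nodup ∧
      ∀ i, i + r ≤ P.length → c ((P.drop i).take r).toFinset = κ := by
  obtain ⟨κ, P, h1, h2, h3⟩ := exists_mono (q := 2) hr (fun A => if c A then 1 else 0) h
  refine ⟨decide (κ = 1), P, h1, h2, fun i hi => ?_⟩
  have h4 := h3 i hi
  subst h4
  by_cases h5 : c ((P.drop i).take r).toFinset
  · simp [h5]
  · simp [h5]

/-- A monochromatic tight path which leaves out at most `r - 1` vertices. -/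
theorem exists_mono_short {r : ℕ} (hr : 3 ≤ r) (h1 : r ≤ Fintype.card V)
    (h2 : Fintype.card V < 3 * r) (c : Finset V → Bool) :
    ∃ (κ : Bool) (P : List V), Fintype.card V < P.length + r ∧ P.Nodup ∧
      ∀ i, i + r ≤ P.length → c ((P.drop i).take r).toFinset = κ := by
  rcases Nat.eq_or_lt_of_le (show Fintype.card V + 1 ≤ 3 * r from h2) with h3 | h3
  · obtain ⟨κ, P, h4, h5, h6⟩ := exists_mono_eq hr c h3
    exact ⟨κ, P, by omega, h5, h6⟩
  · obtain ⟨κ, P, h4, h5, h6⟩ := exists_mono_bool (L := (Fintype.card V - r) / 2)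
      (show 2 ≤ r by omega) c (by omega)
    refine ⟨κ, P, ?_, h5, h6⟩
    omega

/-- **The short regime.** -/
theorem short_regime {r : ℕ} (hr : 3 ≤ r) (hV : Fintype.card V < 3 * r) (c : Finset V → Bool) :
    ∃ P Q : List V, (P.Nodup ∧ ∀ i, i + r ≤ P.length → c ((P.drop i).take r).toFinset = true) ∧
      (Q.Nodup ∧ ∀ i, i + r ≤ Q.length → c ((Q.drop i).take r).toFinset = false) ∧
      (∀ v, v ∈ P ∨ v ∈ Q) ∧ ∀ v, ¬ (v ∈ P ∧ v ∈ Q) := by
  obtain ⟨κ, P, hP, hnd, hw⟩ : ∃ (κ : Bool) (P : List V), Fintype.card V < P.length + r ∧ P.Nodup ∧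
      ∀ i, i + r ≤ P.length → c ((P.drop i).take r).toFinset = κ := by
    rcases lt_or_ge (Fintype.card V) r with h | h
    · exact ⟨true, [], by simpa using h, List.nodup_nil, fun i hi => by
        rw [List.length_nil] at hi; omega⟩
    · exact exists_mono_short hr h hV c
  have hQ : (univ \ P.toFinset).toList.length < r := by
    rw [length_toList, card_sdiff_of_subset (subset_univ _), card_univ,
      List.toFinset_card_of_nodup hnd]
    omega
  have hmem : ∀ v, v ∈ (univ \ P.toFinset).toList ↔ v ∉ P := by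
    intro v
    rw [mem_toList, mem_sdiff, List.mem_toFinset]
    exact and_iff_right (mem_univ _)
  cases κ with
  | true =>
    refine ⟨P, (univ \ P.toFinset).toList, ⟨hnd, hw⟩, ⟨nodup_toList _, fun i hi => ?_⟩, ?_, ?_⟩
    · omega
    · intro v
      rw [hmem]
      exact em _
    · rintro v ⟨h1, h2⟩
      exact (hmem v).1 h2 h1
  | false =>
    refine ⟨(univ \ P.toFinset).toList, P, ⟨nodup_toList _, fun i hi => ?_⟩, ⟨hnd, hw⟩, ?_, ?_⟩
    · omega
    · intro v
      rw [hmem]
      exact (em _).symm
    · rintro v ⟨h1, h2⟩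
      exact (hmem v).1 h1 h2

end Pool.Agent.Lib.TPath
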